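import Pool.Agent.K4H77.CX.Mob

/-!
The boundary values at equivalent cusps differ by periods.
-/

set_option autoImplicit false

open Complex Filter Topology Set UpperHalfPlane MatrixGroups CongruenceSubgroup ModularForm

namespace Pool.Agent.K4H77.CX

open Pool.Agent.TH940 (prim prim_deriv)
open Pool.Agent.Y18.BSD (PG per per_spec exists_per perHom)

variable {N : ℕ} [NeZero N]

theorem diff_mem (f : CuspForm (Gamma0 N : Subgroup (GL (Fin 2) ℝ)) 2) (r r' : ℚ) (b b' : ℂ)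
    (hb : Tendsto (fun y : ℝ => prim f ((r : ℂ) + (y : ℂ) * Complex.I)) (𝓝[>] 0) (𝓝 b))
    (hb' : Tendsto (fun y : ℝ => prim f ((r' : ℂ) + (y : ℂ) * Complex.I)) (𝓝[>] 0) (𝓝 b'))
    (h : Nat.gcd r.den N = Nat.gcd r'.den N)
    (hco : Nat.Coprime (Nat.gcd r.den N) (N / Nat.gcd r.den N)) : b' - b ∈ PG f := by
  obtain ⟨g, hg1, hg2⟩ := exists_g r
  obtain ⟨g', hg1', hg2'⟩ := exists_g r'
  obtain ⟨j, hj⟩ := exists_gamma r r' h hco g g' hg2 hg2'
  set γ : Gamma0 N := ⟨g' * ModularGroup.T ^ j * g⁻¹, hj⟩ with hγ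
  have hd : (r.den : ℤ) ≠ 0 := by exact_mod_cast r.den_nz
  have hd' : (r'.den : ℤ) ≠ 0 := by exact_mod_cast r'.den_nz
  have l1 := lim_mob f r b hb g (by rw [hg2]; exact hd)
    (by rw [hg1, hg2]; push_cast; exact (Rat.mul_den_eq_num r).symm) 0
  have l2 := lim_mob f r' b' hb' g' (by rw [hg2']; exact hd')
    (by rw [hg1', hg2']; push_cast; exact (Rat.mul_den_eq_num r').symm) j
  have l3 : Tendsto (fun Y : ℝ => prim f (mob g' (((j : ℝ) : ℂ) + (Y : ℂ) * Complex.I))) atTop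
      (𝓝 (b + per f γ)) := by
    refine (l1.add_const (per f γ)).congr' ?_
    filter_upwards [eventually_gt_atTop 0] with Y hY
    have hz : 0 < (((0 : ℝ) : ℂ) + (Y : ℂ) * Complex.I).im := by simpa using hY
    set z : ℍ := ⟨((0 : ℝ) : ℂ) + (Y : ℂ) * Complex.I, hz⟩ with hzd
    have e0 : ((0 : ℝ) : ℂ) + (Y : ℂ) * Complex.I = (z : ℂ) := rfl
    have e1 : ((j : ℝ) : ℂ) + (Y : ℂ) * Complex.I = ((ModularGroup.T ^ j • z : ℍ) : ℂ) := by
      rw [ModularGroup.coe_T_zpow_smul_eq, ← e0]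
      push_cast
      ring
    rw [e0, e1, mob_coe, mob_coe]
    have e2 : g' • (ModularGroup.T ^ j • z) = ((γ : SL(2, ℤ)) • (g • z) : ℍ) := by
      rw [← mul_smul, ← mul_smul, hγ]
      congr 1
      simp
    rw [e2, per_spec]
  have h1 := tendsto_nhds_unique l2 l3
  rw [h1]
  have h2 : per f γ ∈ PG f := ⟨Additive.ofMul γ, rfl⟩
  simpa using h2

end Pool.Agent.K4H77.CX
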