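import Pool.Agent.K4H53.CX.Stm
import Pool.Agent.K4H77.CX.Eqv0

/-!
`S_EQV`: the boundary values at equivalent cusps differ by periods.
-/

set_option autoImplicit false

open Complex Filter Topology Set UpperHalfPlane MatrixGroups CongruenceSubgroup ModularForm

namespace Pool.Agent.K4H77.CX

open Pool.Agent.K4H53.CX (bw S_LIM S_EQV)

theorem s_eqv (hlim : S_LIM) : S_EQV := by
  intro N _ f r r' h hco
  exact diff_mem f r r' (bw f r) (bw f r') (hlim N f r) (hlim N f r') h hco

end Pool.Agent.K4H77.CX
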