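import Pool.Agent.K4H77.CX.UnrA

/-!
Kummer generators of `K(ζ_m)` for `K` in `ℚ(ζ_n)`, `n = 2^a m`: the Galois group.
-/

set_option autoImplicit false

open NumberField IsDedekindDomain IsCyclotomicExtension.Rat

namespace Pool.Agent.K4H77.CX

open H300.HW

section

variable (n : ℕ) [NeZero n] (M : Type) [Field M] [NumberField M] [IsCyclotomicExtension {n} ℚ M]

/-- the exponent of a Galois element -/
noncomputable def ex (τ : Gal(M/ℚ)) : ℕ := (galEquivZMod n M τ).val.val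

lemma ex_cast (τ : Gal(M/ℚ)) : ((ex n M τ : ℤ) : ZMod n) = ((galEquivZMod n M τ : (ZMod n)ˣ) : ZMod n) := by
  unfold ex
  rw [Int.cast_natCast, ZMod.natCast_zmod_val]

lemma ex_one : (ex n M 1 : ℤ) ≡ 1 [ZMOD n] := by
  rw [← ZMod.intCast_eq_intCast_iff, ex_cast, map_one]
  simp

lemma ex_mul (σ τ : Gal(M/ℚ)) : (ex n M (σ * τ) : ℤ) ≡ ex n M σ * ex n M τ [ZMOD n] := by
  rw [← ZMod.intCast_eq_intCast_iff, ex_cast, map_mul, Int.cast_mul, ex_cast, ex_cast]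
  simp

lemma ex_inj {σ τ : Gal(M/ℚ)} (h : (ex n M σ : ℤ) ≡ ex n M τ [ZMOD n]) : σ = τ := by
  rw [← ZMod.intCast_eq_intCast_iff, ex_cast, ex_cast] at h
  exact (galEquivZMod n M).injective (Units.ext h)

lemma ex_surj (u : ℤ) (hu : IsCoprime u (n : ℤ)) : ∃ τ : Gal(M/ℚ), (ex n M τ : ℤ) ≡ u [ZMOD n] := by
  refine ⟨(galEquivZMod n M).symm (ZMod.unitOfIsCoprime u hu), ?_⟩
  rw [← ZMod.intCast_eq_intCast_iff, ex_cast, MulEquiv.apply_symm_apply]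
  rfl

lemma ex_coprime (τ : Gal(M/ℚ)) : IsCoprime (n : ℤ) (ex n M τ : ℤ) := by
  rw [← ZMod.coe_int_isUnit_iff_isCoprime, ex_cast]
  exact Units.isUnit _

lemma smul_zz' (τ : Gal(M/ℚ)) : τ ((zz n M : 𝓞 M) : M) = ((zz n M : 𝓞 M) : M) ^ ex n M τ := by
  have h := congrArg (fun x : 𝓞 M => (x : M)) (smul_zz n M τ)
  exact h

lemma prim_M : IsPrimitiveRoot ((zz n M : 𝓞 M) : M) n :=
  (zz_prim n M).map_of_injective RingOfIntegers.coe_injective

lemma xi_fix {a m : ℕ} (hn : n = 2 ^ a * m) (τ : Gal(M/ℚ)) :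
    τ • xi n M a = xi n M a ↔ (ex n M τ : ℤ) ≡ 1 [ZMOD m] := by
  have hm0 : 0 < m := by
    rcases Nat.eq_zero_or_pos m with h | h
    · rw [h, mul_zero] at hn
      exact absurd hn (NeZero.ne n)
    · exact h
  rw [smul_xi]
  conv_lhs => rw [← pow_one (xi n M a), ← pow_mul]
  rw [pr_pow_iff (xi_prim n M hn) hm0, one_mul]
  unfold ex
  rw [← Int.natCast_modEq_iff]
  push_cast
  rfl

lemma modEq_of {a m : ℕ} (hm : Odd m) (hn : n = 2 ^ a * m) {u v : ℤ} (h1 : u ≡ v [ZMOD 2 ^ a])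
    (h2 : u ≡ v [ZMOD m]) : u ≡ v [ZMOD n] := by
  have hco : IsCoprime ((2 : ℤ) ^ a) (m : ℤ) := by
    apply IsCoprime.pow_left
    have : Nat.Coprime 2 m := (Nat.coprime_two_left).2 hm
    exact Nat.isCoprime_iff_coprime.2 this
  rw [hn, Int.modEq_iff_dvd]
  push_cast
  exact hco.mul_dvd h1.dvd h2.dvd

lemma mod_two {a m : ℕ} (hn : n = 2 ^ a * m) {u v : ℤ} (h : u ≡ v [ZMOD n]) : u ≡ v [ZMOD 2 ^ a] :=
  h.of_dvd ⟨m, by rw [hn]; push_cast; rfl⟩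

lemma mod_odd {a m : ℕ} (hn : n = 2 ^ a * m) {u v : ℤ} (h : u ≡ v [ZMOD n]) : u ≡ v [ZMOD m] :=
  h.of_dvd ⟨2 ^ a, by rw [hn]; push_cast; ring⟩

/-- the exponents modulo `2^a` of the elements which fix `K` and the roots of unity of odd order -/
def TT (a m : ℕ) (K : IntermediateField ℚ M) (u : ℤ) : Prop :=
  ∃ τ ∈ K.fixingSubgroup, (ex n M τ : ℤ) ≡ u [ZMOD 2 ^ a] ∧ (ex n M τ : ℤ) ≡ 1 [ZMOD m]

variable {n M}

lemma TT_one {a m : ℕ} (hn : n = 2 ^ a * m) (K : IntermediateField ℚ M) : TT n M a m K 1 :=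
  ⟨1, one_mem _, mod_two n hn (ex_one n M), mod_odd n hn (ex_one n M)⟩

lemma TT_mul {a m : ℕ} (hn : n = 2 ^ a * m) (K : IntermediateField ℚ M) (u v : ℤ)
    (hu : TT n M a m K u) (hv : TT n M a m K v) : TT n M a m K (u * v) := by
  obtain ⟨σ, h1, h2, h3⟩ := hu
  obtain ⟨τ, k1, k2, k3⟩ := hv
  refine ⟨σ * τ, mul_mem h1 k1, (mod_two n hn (ex_mul n M σ τ)).trans (h2.mul k2), ?_⟩
  have := (mod_odd n hn (ex_mul n M σ τ)).trans (h3.mul k3)
  rwa [mul_one] at this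

lemma TT_congr {a m : ℕ} (K : IntermediateField ℚ M) (u v : ℤ) (h : u ≡ v [ZMOD 2 ^ a])
    (hu : TT n M a m K u) : TT n M a m K v := by
  obtain ⟨σ, h1, h2, h3⟩ := hu
  exact ⟨σ, h1, h2.trans h, h3⟩

lemma mem_of_TT {a m : ℕ} (hm : Odd m) (hn : n = 2 ^ a * m) (K : IntermediateField ℚ M) (τ : Gal(M/ℚ))
    (hτ : (ex n M τ : ℤ) ≡ 1 [ZMOD m]) (h : TT n M a m K (ex n M τ)) : τ ∈ K.fixingSubgroup := by
  obtain ⟨σ, h1, h2, h3⟩ := h
  have : σ = τ := ex_inj n M (modEq_of n hm hn h2 (h3.trans hτ.symm))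
  rwa [← this]

/-- the numbers `1` modulo `4` -/
lemma TT_four {a m : ℕ} (hn : n = 2 ^ a * m) (K : IntermediateField ℚ M)
    (h5 : 3 ≤ a → ∃ t, TT n M a m K t ∧ t ≡ 5 [ZMOD 8]) (u : ℤ) (hu : u ≡ 1 [ZMOD 4]) :
    TT n M a m K u :=
  grp a (TT n M a m K) (TT_one hn K) (TT_mul hn K) (TT_congr K) h5 u hu

lemma two_dvd_ex {a m : ℕ} (ha : 1 ≤ a) (hn : n = 2 ^ a * m) (τ : Gal(M/ℚ)) : ¬ (2 : ℤ) ∣ ex n M τ := by
  intro h
  have h1 := ex_coprime n M τ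
  have h2 : (2 : ℤ) ∣ (n : ℤ) := by
    obtain ⟨b, rfl⟩ := Nat.exists_eq_add_of_le ha
    exact ⟨2 ^ b * m, by rw [hn]; push_cast; ring⟩
  have h3 := h1.isUnit_of_dvd' h2 h
  rw [Int.isUnit_iff] at h3
  omega

/-- if two is ramified then not everything fixes `K` -/
lemma not_dvd_of_le {a m : ℕ} (hm : Odd m) (hn : n = 2 ^ a * m) (K : IntermediateField ℚ M)
    (h : ∀ τ : Gal(M/ℚ), (ex n M τ : ℤ) ≡ 1 [ZMOD m] → τ ∈ K.fixingSubgroup) :
    ¬ (2 : ℤ) ∣ discr K := by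
  classical
  have hgal : IsGalois ℚ M := IsCyclotomicExtension.isGalois {n} ℚ M
  have hm0 : m ≠ 0 := by rintro rfl; simp at hm
  have : NeZero m := ⟨hm0⟩
  have hxiM : IsPrimitiveRoot ((xi n M a : 𝓞 M) : M) m :=
    (xi_prim n M hn).map_of_injective RingOfIntegers.coe_injective
  set C : IntermediateField ℚ M := IntermediateField.adjoin ℚ {((xi n M a : 𝓞 M) : M)} with hC
  have hcyc : IsCyclotomicExtension {m} ℚ C := hxiM.intermediateField_adjoin_isCyclotomicExtension ℚ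
  have hle : K ≤ C := by
    intro x hx
    have h1 : x ∈ IntermediateField.fixedField C.fixingSubgroup := by
      rintro ⟨g, hg⟩
      have h2 : g ((xi n M a : 𝓞 M) : M) = ((xi n M a : 𝓞 M) : M) :=
        (IntermediateField.mem_fixingSubgroup_iff C g).1 hg _
          (IntermediateField.subset_adjoin ℚ _ (Set.mem_singleton _))
      have h3 : g • xi n M a = xi n M a := by
        apply RingOfIntegers.ext
        exact h2
      have h4 := h g ((xi_fix n M hn g).1 h3)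
      exact (IntermediateField.mem_fixingSubgroup_iff K g).1 h4 x hx
    rwa [IsGalois.fixedField_fixingSubgroup] at h1
  have h1 : discr (K ⊓ C : IntermediateField ℚ M) ∣ discr C := NumberField.discr_dvd_discr _ _
  rw [inf_eq_left.2 hle] at h1
  intro h2
  have h3 := h2.trans h1
  have h4 : 2 ∣ (discr C).natAbs := Int.natCast_dvd.1 (by exact_mod_cast h3)
  rw [IsCyclotomicExtension.Rat.natAbs_discr m C] at h4
  have h5 : 2 ∣ m ^ m.totient :=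
    h4.trans (Nat.div_dvd_of_dvd (Nat.prod_primeFactors_pow_totient_ediv_dvd (NeZero.pos m)))
  have h6 := Nat.prime_two.dvd_of_dvd_pow h5
  obtain ⟨r, hr⟩ := hm
  omega

/-- the conductors, if everything which is one modulo four fixes `K` -/
lemma cond_dvd {a m : ℕ} (ha : 2 ≤ a) (hm : Odd m) (hn : n = 2 ^ a * m) (K : IntermediateField ℚ M)
    (h : ∀ u : ℤ, u ≡ 1 [ZMOD 4] → TT n M a m K u) (χ : DirichletCharacter ℂ n) (hχ : χ ∈ YY n M K) :
    χ.conductor ∣ 4 * m := by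
  have hd : 4 * m ∣ n := by
    obtain ⟨b, rfl⟩ := Nat.exists_eq_add_of_le ha
    exact ⟨2 ^ b, by rw [hn]; ring⟩
  apply DirichletCharacter.conductor_dvd_of_mem_conductorSet
  rw [DirichletCharacter.mem_conductorSet_iff, DirichletCharacter.factorsThrough_iff_ker_unitsMap hd]
  intro u hu
  rw [MonoidHom.mem_ker] at hu ⊢
  set τ : Gal(M/ℚ) := (galEquivZMod n M).symm u with hτ
  have h1 : (ex n M τ : ℤ) ≡ 1 [ZMOD ((4 * m : ℕ) : ℤ)] := by
    rw [← ZMod.intCast_eq_intCast_iff]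
    have h2 := congrArg Units.val hu
    rw [ZMod.unitsMap_val, Units.val_one] at h2
    have h3 : ((ex n M τ : ℤ) : ZMod n) = (u : ZMod n) := by
      rw [ex_cast, hτ, MulEquiv.apply_symm_apply]
    have h4 : ((ex n M τ : ℤ) : ZMod (4 * m)) = (((ex n M τ : ℤ) : ZMod n)).cast := by
      rw [ZMod.cast_intCast hd]
    rw [h4, h3, h2, Int.cast_one]
  have h4 : (ex n M τ : ℤ) ≡ 1 [ZMOD 4] := h1.of_dvd ⟨m, by push_cast; rfl⟩
  have hmm : (ex n M τ : ℤ) ≡ 1 [ZMOD m] := h1.of_dvd ⟨4, by push_cast; ring⟩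
  have h5 := mem_of_TT hm hn K τ hmm (h _ h4)
  have h6 := (mem_YY n M K χ).1 hχ τ h5
  rw [hτ, MulEquiv.apply_symm_apply] at h6
  apply Units.ext
  rw [MulChar.coe_toUnitHom, h6, Units.val_one]

/-- square roots: `-1` -/
lemma root_i {a m : ℕ} (ha : 2 ≤ a) (hn : n = 2 ^ a * m) : ∃ s : M, s ^ 2 = ((-1 : ℤ) : M) ∧ s ≠ 0 ∧
    ∀ τ : Gal(M/ℚ), (ex n M τ : ℤ) ≡ 1 [ZMOD 4] → τ s = s := by
  obtain ⟨b, rfl⟩ := Nat.exists_eq_add_of_le ha
  have hz := prim_M n M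
  set z : M := ((zz n M : 𝓞 M) : M) with hzd
  have hw : IsPrimitiveRoot (z ^ (2 ^ b * m)) 4 := hz.pow (NeZero.pos n) (by rw [hn]; ring)
  set w : M := z ^ (2 ^ b * m) with hwd
  have h2 : w ^ 2 = -1 := by
    have h3 : (w ^ 2) ^ 2 = 1 ^ 2 := by rw [← pow_mul, hw.pow_eq_one, one_pow]
    rcases sq_eq_sq_iff_eq_or_eq_neg.1 h3 with h4 | h4
    · exact absurd h4 (hw.pow_ne_one_of_pos_of_lt (by norm_num) (by norm_num))
    · exact h4
  refine ⟨w, by rw [h2]; push_cast; rfl, ?_, fun τ hτ => ?_⟩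
  · intro h
    rw [h] at h2
    norm_num at h2
  · have h3 : τ w = w ^ ex n M τ := by
      rw [hwd, map_pow, hzd, smul_zz', ← hzd, ← pow_mul, ← pow_mul, mul_comm]
    rw [h3]
    conv_rhs => rw [← pow_one w]
    rw [pr_pow_iff hw (by norm_num), ← Int.natCast_modEq_iff]
    exact_mod_cast hτ

/-- square roots: `2` and `-2` -/
lemma root_two {a m : ℕ} (ha : 3 ≤ a) (hn : n = 2 ^ a * m) :
    (∃ s : M, s ^ 2 = ((2 : ℤ) : M) ∧ s ≠ 0 ∧
      ∀ τ : Gal(M/ℚ), ((ex n M τ : ℤ) ≡ 1 [ZMOD 8] ∨ (ex n M τ : ℤ) ≡ 7 [ZMOD 8]) → τ s = s) ∧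
    (∃ s : M, s ^ 2 = ((-2 : ℤ) : M) ∧ s ≠ 0 ∧
      ∀ τ : Gal(M/ℚ), ((ex n M τ : ℤ) ≡ 1 [ZMOD 8] ∨ (ex n M τ : ℤ) ≡ 3 [ZMOD 8]) → τ s = s) := by
  obtain ⟨b, rfl⟩ := Nat.exists_eq_add_of_le ha
  have hz := prim_M n M
  set z : M := ((zz n M : 𝓞 M) : M) with hzd
  have hw : IsPrimitiveRoot (z ^ (2 ^ b * m)) 8 := hz.pow (NeZero.pos n) (by rw [hn]; ring)
  set w : M := z ^ (2 ^ b * m) with hwd
  have h4 : w ^ 4 = -1 := by
    have h3 : (w ^ 4) ^ 2 = 1 ^ 2 := by rw [← pow_mul, hw.pow_eq_one, one_pow]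
    rcases sq_eq_sq_iff_eq_or_eq_neg.1 h3 with h4 | h4
    · exact absurd h4 (hw.pow_ne_one_of_pos_of_lt (by norm_num) (by norm_num))
    · exact h4
  have h3 : ∀ τ : Gal(M/ℚ), τ w = w ^ ex n M τ := by
    intro τ
    rw [hwd, map_pow, hzd, smul_zz', ← hzd, ← pow_mul, ← pow_mul, mul_comm]
  clear_value w
  have h5 : ∀ (τ : Gal(M/ℚ)) (j : ℕ), (ex n M τ : ℤ) ≡ j [ZMOD 8] → τ w = w ^ j := by
    intro τ j hj
    rw [h3, pr_pow_iff hw (by norm_num), ← Int.natCast_modEq_iff]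
    exact_mod_cast hj
  constructor
  · have h6 : (w + w ^ 7) ^ 2 = ((2 : ℤ) : M) := by
      push_cast
      linear_combination (w ^ 10 - w ^ 6 + 2 * w ^ 4 + w ^ 2 - 2) * h4
    refine ⟨w + w ^ 7, h6, ?_, ?_⟩
    · intro h
      rw [h] at h6
      norm_num at h6
    · intro τ hτ
      rcases hτ with h | h
      · have := h5 τ 1 (by simpa using h)
        rw [map_add, map_pow, this]
        ring
      · have := h5 τ 7 (by simpa using h)
        rw [map_add, map_pow, this]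
        have h8 := hw.pow_eq_one
        have h9 : (w ^ 7) ^ 7 = w := by
          calc (w ^ 7) ^ 7 = (w ^ 8) ^ 6 * w := by ring
            _ = w := by rw [h8, one_pow, one_mul]
        rw [h9, add_comm]
  · have h6 : (w + w ^ 3) ^ 2 = ((-2 : ℤ) : M) := by
      push_cast
      linear_combination (w ^ 2 + 2) * h4
    refine ⟨w + w ^ 3, h6, ?_, ?_⟩
    · intro h
      rw [h] at h6
      norm_num at h6
    · intro τ hτ
      rcases hτ with h | h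
      · have := h5 τ 1 (by simpa using h)
        rw [map_add, map_pow, this]
        ring
      · have := h5 τ 3 (by simpa using h)
        rw [map_add, map_pow, this]
        have h8 := hw.pow_eq_one
        have h9 : (w ^ 3) ^ 3 = w := by
          calc (w ^ 3) ^ 3 = (w ^ 8) * w := by ring
            _ = w := by rw [h8, one_mul]
        rw [h9, add_comm]

/-- `K(√d) / K` is unramified above two -/
def Unr2 (K : Type) [Field K] [NumberField K] (d : ℤ) : Prop :=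
  ∀ v : HeightOneSpectrum (𝓞 K), (2 : 𝓞 K) ∈ v.asIdeal →
    ∃ c t : K, c ≠ 0 ∧ v.valuation K t ≤ 1 ∧ (d : K) * c ^ 2 = 1 + 4 * t

lemma unr_root {a m : ℕ} (hm : Odd m) (hn : n = 2 ^ a * m) (K : IntermediateField ℚ M) (d : ℤ)
    (s : M) (hs : s ^ 2 = (d : M)) (hs0 : s ≠ 0)
    (H : ∀ τ ∈ K.fixingSubgroup, (ex n M τ : ℤ) ≡ 1 [ZMOD m] → τ s = s) : Unr2 K d :=
  fun v hv => unr_of n M hm hn K d s hs hs0 (fun τ hτ h => H τ hτ ((xi_fix n M hn τ).1 h)) v hv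

lemma TT_of_mem {a m : ℕ} {K : IntermediateField ℚ M} {τ : Gal(M/ℚ)} (hτ : τ ∈ K.fixingSubgroup)
    (h : (ex n M τ : ℤ) ≡ 1 [ZMOD m]) : TT n M a m K (ex n M τ) := ⟨τ, hτ, Int.ModEq.refl _, h⟩

/-- either one of `2`, `-2` will do, or the group is large -/
lemma cases_two {a m : ℕ} (ha : 3 ≤ a) (hm : Odd m) (hn : n = 2 ^ a * m) (K : IntermediateField ℚ M) :
    (∃ d : ℤ, (d = 2 ∨ d = -2) ∧ Unr2 K d) ∨ ∃ t, TT n M a m K t ∧ t ≡ 5 [ZMOD 8] := by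
  by_cases h5 : ∃ t, TT n M a m K t ∧ t ≡ 5 [ZMOD 8]
  · exact Or.inr h5
  left
  push Not at h5
  obtain ⟨⟨s, hs, hs0, hs'⟩, ⟨r, hr, hr0, hr'⟩⟩ := root_two (n := n) (M := M) ha hn
  have hodd : ∀ τ : Gal(M/ℚ), ¬ (2 : ℤ) ∣ ex n M τ := fun τ => two_dvd_ex (by omega) hn τ
  by_cases h7 : ∃ τ ∈ K.fixingSubgroup, (ex n M τ : ℤ) ≡ 1 [ZMOD m] ∧ (ex n M τ : ℤ) ≡ 7 [ZMOD 8]
  · refine ⟨2, Or.inl rfl, unr_root hm hn K 2 s hs hs0 fun τ hτ h1 => hs' τ ?_⟩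
    obtain ⟨σ, hσ, h2, h3⟩ := h7
    have e1 := h5 _ (TT_of_mem hτ h1)
    have e2 := h5 _ (TT_mul hn K _ _ (TT_of_mem hτ h1) (TT_of_mem hσ h2))
    have e3 := hodd τ
    have e4 : ¬ (ex n M τ : ℤ) ≡ 3 [ZMOD 8] := by
      intro h
      apply e2
      have := h.mul h3
      exact this.trans (by decide)
    unfold Int.ModEq at *
    omega
  · refine ⟨-2, Or.inr rfl, unr_root hm hn K (-2) r hr hr0 fun τ hτ h1 => hr' τ ?_⟩
    push Not at h7
    have e1 := h5 _ (TT_of_mem hτ h1)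
    have e2 := h7 τ hτ h1
    have e3 := hodd τ
    unfold Int.ModEq at *
    omega

theorem unr_one {a m : ℕ} (hm : Odd m) (hn : n = 2 ^ a * m) (K : IntermediateField ℚ M)
    (h2 : (2 : ℤ) ∣ discr K) : ∃ d : ℤ, (d = 2 ∨ d = -2 ∨ d = -1) ∧ Unr2 K d := by
  by_cases h5 : 3 ≤ a → ∃ t, TT n M a m K t ∧ t ≡ 5 [ZMOD 8]
  swap
  · push Not at h5
    obtain ⟨ha, h5⟩ := h5
    rcases cases_two ha hm hn K with ⟨d, hd, h⟩ | ⟨t, h, h'⟩
    · exact ⟨d, by tauto, h⟩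
    · exact absurd h' (h5 t h)
  have h4 := TT_four hn K h5
  by_cases ha : 2 ≤ a
  swap
  · exfalso
    refine not_dvd_of_le hm hn K (fun τ hτ => mem_of_TT hm hn K τ hτ ?_) h2
    apply TT_congr K 1 _ _ (TT_one hn K)
    have h6 : a = 0 ∨ a = 1 := by omega
    rcases h6 with rfl | rfl
    · simp [Int.modEq_one]
    · have := two_dvd_ex le_rfl hn τ
      unfold Int.ModEq
      omega
  obtain ⟨s, hs, hs0, hs'⟩ := root_i (n := n) (M := M) ha hn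
  refine ⟨-1, by tauto, unr_root hm hn K (-1) s hs hs0 fun τ hτ h1 => hs' τ ?_⟩
  by_contra hcon
  refine not_dvd_of_le hm hn K (fun σ hσ => mem_of_TT hm hn K σ hσ ?_) h2
  have hodd : ∀ τ : Gal(M/ℚ), ¬ (2 : ℤ) ∣ ex n M τ := fun τ => two_dvd_ex (by omega) hn τ
  have e1 := hodd σ
  have e2 := hodd τ
  have e3 : (ex n M τ : ℤ) ≡ 3 [ZMOD 4] := by
    unfold Int.ModEq at *
    omega
  by_cases e4 : (ex n M σ : ℤ) ≡ 1 [ZMOD 4]
  · exact h4 _ e4
  have e5 : (ex n M σ : ℤ) ≡ 3 [ZMOD 4] := by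
    unfold Int.ModEq at *
    omega
  -- an inverse
  have hco : IsCoprime ((2 : ℤ) ^ a) (ex n M τ : ℤ) := by
    apply IsCoprime.pow_left
    exact (Int.prime_two.coprime_iff_not_dvd).2 e2
  obtain ⟨p, q, hpq⟩ := hco
  have e6 : q * (ex n M τ : ℤ) ≡ 1 [ZMOD 2 ^ a] := by
    rw [Int.modEq_iff_dvd]
    exact ⟨p, by linarith⟩
  have e7 : q ≡ 3 [ZMOD 4] := by
    have h8 : q * (ex n M τ : ℤ) ≡ 1 [ZMOD 4] := e6.of_dvd (by
      obtain ⟨b, rfl⟩ := Nat.exists_eq_add_of_le ha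
      exact ⟨2 ^ b, by ring⟩)
    have h9 : q * 3 ≡ 1 [ZMOD 4] := ((Int.ModEq.refl q).mul e3).symm.trans h8
    unfold Int.ModEq at *
    omega
  have e8 : (ex n M σ : ℤ) * q ≡ 1 [ZMOD 4] := (e5.mul e7).trans (by decide)
  have e9 := TT_mul hn K _ _ (h4 _ e8) (TT_of_mem hτ h1)
  refine TT_congr K _ _ ?_ e9
  rw [mul_assoc]
  have := (Int.ModEq.refl (ex n M σ : ℤ)).mul e6
  rwa [mul_one] at this

theorem unr_two {a m : ℕ} (hm : Odd m) (hn : n = 2 ^ a * m) (K : IntermediateField ℚ M)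
    (h8 : ∃ χ : YY n M K, 8 ∣ (χ : DirichletCharacter ℂ n).conductor) :
    ∃ d : ℤ, (d = 2 ∨ d = -2) ∧ Unr2 K d := by
  obtain ⟨χ, hχ⟩ := h8
  have h1 : 8 ∣ n := hχ.trans (DirichletCharacter.conductor_dvd_level _)
  have ha : 3 ≤ a := by
    by_contra ha
    have h2 : a ≤ 2 := by omega
    have h3 : 2 ^ 3 ∣ 2 ^ a * m := by rw [← hn]; simpa using h1
    have hco : Nat.Coprime (2 ^ 3) m := by
      apply Nat.Coprime.pow_left
      exact (Nat.coprime_two_left).2 hm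
    have h4 := hco.dvd_of_dvd_mul_right h3
    have h5 := (Nat.pow_dvd_pow_iff_le_right (by norm_num)).1 h4
    omega
  rcases cases_two ha hm hn K with h | h
  · exact h
  exfalso
  have h2 := TT_four hn K (fun _ => h)
  have h3 := cond_dvd (by omega) hm hn K h2 _ χ.2
  have h4 := hχ.trans h3
  obtain ⟨r, hr⟩ := hm
  omega

end

end Pool.Agent.K4H77.CX
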