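import Pool.Agent.K4H53.CX.Stm2
import Pool.Agent.K4H77.CX.UnrB

/-!
`S_UNR`: Kummer generators which are unramified above two.
-/

set_option autoImplicit false

namespace Pool.Agent.K4H77.CX

theorem s_unr : Pool.Agent.K4H53.CX.S_UNR := by
  intro a m n _ M _ _ _ hm hn K
  exact ⟨fun h => unr_one hm hn K h, fun h => unr_two hm hn K h⟩

end Pool.Agent.K4H77.CX
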