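import Pool.Agent.Y18.BSD.Per

/-!
The primitive of a weight two form along the translates of `i∞` by `SL₂(ℤ)`.
-/

set_option autoImplicit false

open Complex Filter Topology Set UpperHalfPlane MatrixGroups CongruenceSubgroup ModularForm

namespace Pool.Agent.K4H77.CX

open Pool.Agent.TH940 (prim prim_deriv)
open Pool.Agent.Y18.BSD (PG per per_spec exists_per)

variable {N : ℕ} [NeZero N]

/-- the Möbius transformation -/
noncomputable def mob (g : SL(2, ℤ)) (z : ℂ) : ℂ :=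
  (((g 0 0 : ℤ) : ℂ) * z + ((g 0 1 : ℤ) : ℂ)) / (((g 1 0 : ℤ) : ℂ) * z + ((g 1 1 : ℤ) : ℂ))

lemma det_c (g : SL(2, ℤ)) :
    ((g 0 0 : ℤ) : ℂ) * ((g 1 1 : ℤ) : ℂ) - ((g 0 1 : ℤ) : ℂ) * ((g 1 0 : ℤ) : ℂ) = 1 := by
  have h1 := Matrix.SpecialLinearGroup.det_coe g
  rw [Matrix.det_fin_two] at h1
  exact_mod_cast h1

lemma mob_coe (g : SL(2, ℤ)) (z : ℍ) : mob g (z : ℂ) = ((g • z : ℍ) : ℂ) := by
  rw [ModularGroup.sl_moeb, coe_smul_of_det_pos (by simp) z, ModularGroup.denom_apply]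
  rfl

lemma den_ne (g : SL(2, ℤ)) (z : ℂ) (hz : 0 < z.im) :
    ((g 1 0 : ℤ) : ℂ) * z + ((g 1 1 : ℤ) : ℂ) ≠ 0 := by
  have h1 := denom_ne_zero (g : GL (Fin 2) ℝ) (⟨z, hz⟩ : ℍ)
  rw [ModularGroup.denom_apply] at h1
  exact h1

lemma mob_deriv (f : CuspForm (Gamma0 N : Subgroup (GL (Fin 2) ℝ)) 2) (g : SL(2, ℤ)) (τ : ℍ) :
    HasDerivAt (fun z => prim f (mob g z)) (2 * Real.pi * Complex.I * (⇑f ∣[(2 : ℤ)] g) τ) (τ : ℂ) := by
  have h0 := den_ne g τ τ.im_pos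
  have h2 : HasDerivAt (prim f) (2 * Real.pi * Complex.I * f (g • τ)) (mob g τ) := by
    have := prim_deriv f (g • τ)
    rw [← mob_coe g τ] at this
    exact this
  have h3 : HasDerivAt (mob g) (1 / (((g 1 0 : ℤ) : ℂ) * (τ : ℂ) + ((g 1 1 : ℤ) : ℂ)) ^ 2) (τ : ℂ) := by
    have h4 : HasDerivAt (fun z : ℂ => ((g 0 0 : ℤ) : ℂ) * z + ((g 0 1 : ℤ) : ℂ)) ((g 0 0 : ℤ) : ℂ)
        (τ : ℂ) := by
      simpa using ((hasDerivAt_id (τ : ℂ)).const_mul ((g 0 0 : ℤ) : ℂ)).add_const ((g 0 1 : ℤ) : ℂ)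
    have h5 : HasDerivAt (fun z : ℂ => ((g 1 0 : ℤ) : ℂ) * z + ((g 1 1 : ℤ) : ℂ)) ((g 1 0 : ℤ) : ℂ)
        (τ : ℂ) := by
      simpa using ((hasDerivAt_id (τ : ℂ)).const_mul ((g 1 0 : ℤ) : ℂ)).add_const ((g 1 1 : ℤ) : ℂ)
    refine (h4.div h5 h0).congr_deriv ?_
    congr 1
    linear_combination det_c g
  refine (h2.comp (τ : ℂ) h3).congr_deriv ?_
  rw [ModularForm.SL_slash_apply, ModularGroup.denom_apply]
  have h6 : (((g 1 0 : ℤ) : ℂ) * (τ : ℂ) + ((g 1 1 : ℤ) : ℂ)) ^ (-2 : ℤ) =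
      1 / (((g 1 0 : ℤ) : ℂ) * (τ : ℂ) + ((g 1 1 : ℤ) : ℂ)) ^ 2 := by
    rw [zpow_neg, one_div]
    norm_cast
  rw [h6]
  ring

/-- high up, horizontal displacements do not matter -/
lemma horiz (f : CuspForm (Gamma0 N : Subgroup (GL (Fin 2) ℝ)) 2) (g : SL(2, ℤ)) (s t : ℝ) :
    Tendsto (fun Y : ℝ => prim f (mob g ((t : ℂ) + (Y : ℂ) * Complex.I)) -
      prim f (mob g ((s : ℂ) + (Y : ℂ) * Complex.I))) atTop (𝓝 0) := by
  have hz := CuspFormClass.zero_at_infty_slash (Γ := (Gamma0 N : Subgroup (GL (Fin 2) ℝ))) (k := 2) f g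
  rw [isZeroAtImInfty_iff] at hz
  rw [Metric.tendsto_atTop]
  intro ε hε
  set δ : ℝ := ε / (2 * Real.pi * (|t - s| + 1)) with hδ
  have hpi := Real.pi_pos
  have hts : 0 ≤ |t - s| := abs_nonneg _
  have hδ0 : 0 < δ := by positivity
  obtain ⟨A, hA⟩ := hz δ hδ0
  refine ⟨max A 0 + 1, fun Y hY => ?_⟩
  have hY0 : max A 0 < Y := by linarith
  have hconv : Convex ℝ {z : ℂ | max A 0 < z.im} := convex_halfSpace_im_gt _
  have key := hconv.norm_image_sub_le_of_norm_hasDerivWithin_le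
    (f := fun z => prim f (mob g z))
    (f' := fun z => if hz : 0 < z.im then 2 * Real.pi * Complex.I * (⇑f ∣[(2 : ℤ)] g) ⟨z, hz⟩ else 0)
    (C := 2 * Real.pi * δ) (x := (s : ℂ) + (Y : ℂ) * Complex.I) (y := (t : ℂ) + (Y : ℂ) * Complex.I)
    (fun z hz => by
      have hz0 : 0 < z.im := lt_of_le_of_lt (le_max_right A 0) hz
      simp only [hz0, dif_pos]
      exact (mob_deriv f g ⟨z, hz0⟩).hasDerivWithinAt)
    (fun z hz => by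
      have hz0 : 0 < z.im := lt_of_le_of_lt (le_max_right A 0) hz
      simp only [hz0, dif_pos]
      have h1 := hA ⟨z, hz0⟩ ((le_max_left A 0).trans (le_of_lt hz))
      rw [norm_mul]
      have h2 : ‖(2 * Real.pi * Complex.I : ℂ)‖ = 2 * Real.pi := by
        rw [norm_mul, norm_mul, Complex.norm_I, mul_one, Complex.norm_real, Real.norm_eq_abs,
          abs_of_pos hpi]
        norm_num
      rw [h2]
      exact mul_le_mul_of_nonneg_left h1 (by positivity))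
    (by simpa using hY0) (by simpa using hY0)
  rw [dist_zero_right]
  refine lt_of_le_of_lt key ?_
  have e1 : (t : ℂ) + (Y : ℂ) * Complex.I - ((s : ℂ) + (Y : ℂ) * Complex.I) = ((t - s : ℝ) : ℂ) := by
    push_cast; ring
  rw [e1, Complex.norm_real, Real.norm_eq_abs]
  have e2 : 2 * Real.pi * δ * |t - s| = ε * (|t - s| / (|t - s| + 1)) := by
    rw [hδ]
    field_simp
  rw [e2]
  have h3 : |t - s| / (|t - s| + 1) < 1 := by
    rw [div_lt_one (by positivity)]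
    linarith
  calc ε * (|t - s| / (|t - s| + 1)) < ε * 1 := mul_lt_mul_of_pos_left h3 hε
    _ = ε := mul_one _

/-- the vertical line above `r` -/
lemma vert (g : SL(2, ℤ)) (hc : (g 1 0 : ℤ) ≠ 0) (r : ℚ) (hr : ((g 0 0 : ℤ) : ℚ) = r * ((g 1 0 : ℤ) : ℚ))
    (Y : ℝ) (hY : 0 < Y) :
    mob g (((-(((g 1 1 : ℤ) : ℝ) / ((g 1 0 : ℤ) : ℝ)) : ℝ) : ℂ) + (Y : ℂ) * Complex.I) =
      (r : ℂ) + ((((((g 1 0 : ℤ) : ℝ) ^ 2)⁻¹ * Y⁻¹ : ℝ)) : ℂ) * Complex.I := by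
  have hcc : ((g 1 0 : ℤ) : ℂ) ≠ 0 := by exact_mod_cast hc
  have hYc : (Y : ℂ) ≠ 0 := by exact_mod_cast hY.ne'
  have hrc : ((g 0 0 : ℤ) : ℂ) = (r : ℂ) * ((g 1 0 : ℤ) : ℂ) := by exact_mod_cast congrArg (fun x : ℚ => (x : ℂ)) hr
  have hdet := det_c g
  unfold mob
  push_cast
  have e1 : ((g 1 0 : ℤ) : ℂ) * (-(((g 1 1 : ℤ) : ℂ) / ((g 1 0 : ℤ) : ℂ)) + (Y : ℂ) * Complex.I) +
      ((g 1 1 : ℤ) : ℂ) = ((g 1 0 : ℤ) : ℂ) * Y * Complex.I := by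
    field_simp
    ring
  rw [e1, hrc]
  rw [hrc] at hdet
  have h2 : ((g 1 0 : ℤ) : ℂ) * Y * Complex.I ≠ 0 := mul_ne_zero (mul_ne_zero hcc hYc) Complex.I_ne_zero
  rw [div_eq_iff h2]
  have h3 : ((r : ℂ) + (((g 1 0 : ℤ) : ℂ) ^ 2)⁻¹ * (Y : ℂ)⁻¹ * Complex.I) *
      (((g 1 0 : ℤ) : ℂ) * Y * Complex.I) = (r : ℂ) * ((g 1 0 : ℤ) : ℂ) * Y * Complex.I -
        (((g 1 0 : ℤ) : ℂ))⁻¹ := by
    field_simp
    linear_combination Complex.I_sq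
  rw [h3]
  have h4 : ((g 0 1 : ℤ) : ℂ) = (r : ℂ) * ((g 1 1 : ℤ) : ℂ) - (((g 1 0 : ℤ) : ℂ))⁻¹ := by
    field_simp
    linear_combination -hdet
  rw [h4]
  field_simp
  ring

/-- the limit of the primitive along the translate of a vertical line -/
lemma lim_mob (f : CuspForm (Gamma0 N : Subgroup (GL (Fin 2) ℝ)) 2) (r : ℚ) (b : ℂ)
    (hb : Tendsto (fun y : ℝ => prim f ((r : ℂ) + (y : ℂ) * Complex.I)) (𝓝[>] 0) (𝓝 b))
    (g : SL(2, ℤ)) (hc : (g 1 0 : ℤ) ≠ 0) (hr : ((g 0 0 : ℤ) : ℚ) = r * ((g 1 0 : ℤ) : ℚ)) (t : ℝ) :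
    Tendsto (fun Y : ℝ => prim f (mob g ((t : ℂ) + (Y : ℂ) * Complex.I))) atTop (𝓝 b) := by
  have hcr : (0 : ℝ) < (((g 1 0 : ℤ) : ℝ)) ^ 2 := by
    have : (((g 1 0 : ℤ) : ℝ)) ≠ 0 := by exact_mod_cast hc
    positivity
  have h1 : Tendsto (fun Y : ℝ => ((((g 1 0 : ℤ) : ℝ)) ^ 2)⁻¹ * Y⁻¹) atTop (𝓝[>] 0) := by
    refine tendsto_nhdsWithin_iff.2 ⟨?_, ?_⟩
    · have h2 : Tendsto (fun Y : ℝ => ((((g 1 0 : ℤ) : ℝ)) ^ 2)⁻¹ * Y⁻¹) atTop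
          (𝓝 (((((g 1 0 : ℤ) : ℝ)) ^ 2)⁻¹ * 0)) := tendsto_inv_atTop_zero.const_mul _
      rwa [mul_zero] at h2
    · filter_upwards [eventually_gt_atTop 0] with Y hY
      exact mul_pos (inv_pos.2 hcr) (inv_pos.2 hY)
  have h2 := hb.comp h1
  have h3 : Tendsto (fun Y : ℝ => prim f (mob g (((-(((g 1 1 : ℤ) : ℝ) / ((g 1 0 : ℤ) : ℝ)) : ℝ) : ℂ) +
      (Y : ℂ) * Complex.I))) atTop (𝓝 b) := by
    refine h2.congr' ?_
    filter_upwards [eventually_gt_atTop 0] with Y hY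
    rw [vert g hc r hr Y hY]
    rfl
  have h4 := (horiz f g (-(((g 1 1 : ℤ) : ℝ) / ((g 1 0 : ℤ) : ℝ))) t).add h3
  rw [zero_add] at h4
  refine h4.congr fun Y => ?_
  ring

lemma exists_g (r : ℚ) : ∃ g : SL(2, ℤ), g 0 0 = r.num ∧ g 1 0 = (r.den : ℤ) := by
  have h5 : IsCoprime r.num (r.den : ℤ) := by
    have := r.reduced
    rw [Int.isCoprime_iff_gcd_eq_one]
    exact this
  obtain ⟨u, v, huv⟩ := h5
  refine ⟨⟨!![r.num, -v; (r.den : ℤ), u], ?_⟩, rfl, rfl⟩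
  rw [Matrix.det_fin_two]
  simp
  linarith

lemma exists_j (N c c' : ℕ) (d d' : ℤ) (h : Nat.gcd c N = Nat.gcd c' N)
    (hco : Nat.Coprime (Nat.gcd c N) (N / Nat.gcd c N)) :
    ∃ j : ℤ, (N : ℤ) ∣ c' * d - c * d' - c * c' * j := by
  set e := Nat.gcd c N with he
  set M := N / e with hM
  have heN : e ∣ N := Nat.gcd_dvd_right c N
  have hNe : N = e * M := (Nat.mul_div_cancel' heN).symm
  have hMN : M ∣ N := ⟨e, by rw [hNe]; ring⟩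
  have h1 : Nat.Coprime c M := by
    have h2 : Nat.gcd c M ∣ e := Nat.dvd_gcd (Nat.gcd_dvd_left _ _) ((Nat.gcd_dvd_right _ _).trans hMN)
    have h3 : Nat.gcd c M ∣ Nat.gcd e M := Nat.dvd_gcd h2 (Nat.gcd_dvd_right _ _)
    rw [hco] at h3
    exact Nat.dvd_one.1 h3
  have h1' : Nat.Coprime c' M := by
    have h2 : Nat.gcd c' M ∣ e := by
      rw [h]
      exact Nat.dvd_gcd (Nat.gcd_dvd_left _ _) ((Nat.gcd_dvd_right _ _).trans hMN)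
    have h3 : Nat.gcd c' M ∣ Nat.gcd e M := Nat.dvd_gcd h2 (Nat.gcd_dvd_right _ _)
    rw [hco] at h3
    exact Nat.dvd_one.1 h3
  have h4 : IsCoprime ((c * c' : ℕ) : ℤ) (M : ℤ) := Nat.isCoprime_iff_coprime.2 (Nat.Coprime.mul_left h1 h1')
  obtain ⟨u, v, huv⟩ := h4
  obtain ⟨c1, hc1⟩ := Nat.gcd_dvd_left c N
  obtain ⟨c2, hc2⟩ : e ∣ c' := by rw [h]; exact Nat.gcd_dvd_left c' N
  refine ⟨u * (c' * d - c * d'), ?_⟩
  refine ⟨(c2 * d - c1 * d') * v, ?_⟩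
  have e1 : (c' : ℤ) * d - c * d' - c * c' * (u * (c' * d - c * d')) = (c' * d - c * d') * (v * M) := by
    have : (v * M : ℤ) = 1 - u * ((c * c' : ℕ) : ℤ) := by linarith
    rw [this]
    push_cast
    ring
  rw [e1]
  have e2 : (c' : ℤ) = e * c2 := by exact_mod_cast hc2
  have e3 : (c : ℤ) = e * c1 := by exact_mod_cast hc1
  have e4 : (N : ℤ) = e * M := by exact_mod_cast hNe
  rw [e4, e2, e3]
  ring

/-- the two rational numbers are equivalent -/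
lemma exists_gamma (r r' : ℚ) (h : Nat.gcd r.den N = Nat.gcd r'.den N)
    (hco : Nat.Coprime (Nat.gcd r.den N) (N / Nat.gcd r.den N)) (g g' : SL(2, ℤ))
    (hg : g 1 0 = (r.den : ℤ)) (hg' : g' 1 0 = (r'.den : ℤ)) :
    ∃ j : ℤ, g' * ModularGroup.T ^ j * g⁻¹ ∈ Gamma0 N := by
  obtain ⟨j, hj⟩ := exists_j N r.den r'.den (g 1 1) (g' 1 1) h hco
  refine ⟨j, ?_⟩
  rw [Gamma0_mem]
  have e1 : (g' * ModularGroup.T ^ j * g⁻¹) 1 0 =
      (r'.den : ℤ) * g 1 1 - r.den * g' 1 1 - r.den * r'.den * j := by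
    rw [← hg, ← hg']
    have hT := ModularGroup.coe_T_zpow j
    have h1 : ((g' * ModularGroup.T ^ j * g⁻¹ : SL(2, ℤ)) : Matrix (Fin 2) (Fin 2) ℤ) 1 0 =
      ((g' : Matrix (Fin 2) (Fin 2) ℤ) * ((ModularGroup.T ^ j : SL(2, ℤ)) : Matrix (Fin 2) (Fin 2) ℤ) *
        ((g⁻¹ : SL(2, ℤ)) : Matrix (Fin 2) (Fin 2) ℤ)) 1 0 := by
      rw [Matrix.SpecialLinearGroup.coe_mul, Matrix.SpecialLinearGroup.coe_mul]
    rw [h1, hT, Matrix.SpecialLinearGroup.coe_inv, Matrix.adjugate_fin_two]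
    simp [Matrix.mul_apply, Fin.sum_univ_two]
    ring
  rw [e1]
  exact_mod_cast (ZMod.intCast_zmod_eq_zero_iff_dvd _ N).2 hj

end Pool.Agent.K4H77.CX
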