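import Pool.Agent.H300R2.HWPoints

/-!
Kummer generators of `K(ζ_m)` for `K` in `ℚ(ζ_n)`, `n = 2^a m`.
-/

set_option autoImplicit false

open NumberField IsDedekindDomain IsCyclotomicExtension.Rat

namespace Pool.Agent.K4H77.CX

open H300.HW

/-- a multiplicative set of odd numbers containing a number `5` modulo `8` contains all the numbers
`1` modulo `4` -/
lemma grp (a : ℕ) (T : ℤ → Prop) (h1 : T 1) (hmul : ∀ u v, T u → T v → T (u * v))
    (hcong : ∀ u v, u ≡ v [ZMOD 2 ^ a] → T u → T v)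
    (h5 : 3 ≤ a → ∃ t, T t ∧ t ≡ 5 [ZMOD 8]) : ∀ u, u ≡ 1 [ZMOD 4] → T u := by
  intro u hu
  by_cases ha : 3 ≤ a
  swap
  · apply hcong 1 u _ h1
    have h4 : (2 : ℤ) ^ a ∣ 4 := by
      have h2 : a ≤ 2 := by omega
      have : (2 : ℤ) ^ a ∣ 2 ^ 2 := pow_dvd_pow 2 h2
      simpa using this
    exact (hu.of_dvd h4).symm
  obtain ⟨t5, ht5, ht5'⟩ := h5 ha
  have key : ∀ j : ℕ, ∀ u : ℤ, u ≡ 1 [ZMOD 4] → ∃ t, T t ∧ t ≡ u [ZMOD 2 ^ (j + 3)] := by
    intro j
    induction j with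
    | zero =>
      intro u hu
      have h8 : u ≡ 1 [ZMOD 8] ∨ u ≡ 5 [ZMOD 8] := by
        unfold Int.ModEq at hu ⊢
        omega
      rcases h8 with h | h
      · exact ⟨1, h1, by simpa using h.symm⟩
      · exact ⟨t5, ht5, by simpa using ht5'.trans h.symm⟩
    | succ j ih =>
      intro u hu
      obtain ⟨t, ht, htu⟩ := ih u hu
      obtain ⟨q, hq⟩ := htu.symm.dvd
      rcases Int.even_or_odd q with ⟨q', hq'⟩ | ⟨q', hq'⟩
      · refine ⟨t, ht, ?_⟩
        apply Int.ModEq.symm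
        rw [Int.modEq_iff_dvd]
        exact ⟨q', by rw [hq, hq']; ring⟩
      · obtain ⟨y, hy, hyy⟩ := ih (1 + 2 ^ (j + 2)) (by
          apply Int.ModEq.symm
          rw [Int.modEq_iff_dvd]
          exact ⟨2 ^ j, by ring⟩)
        obtain ⟨r, hr⟩ := hyy.symm.dvd
        obtain ⟨w, hw⟩ : ∃ w, u = 4 * w + 1 := by
          obtain ⟨w, hw⟩ := hu.symm.dvd
          exact ⟨w, by linarith⟩
        refine ⟨t * (y * y), hmul _ _ ht (hmul _ _ hy hy), ?_⟩
        apply Int.ModEq.symm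
        rw [Int.modEq_iff_dvd]
        have ht' : t = u + 2 ^ (j + 3) * q := by linarith
        have hy' : y = 1 + 2 ^ (j + 2) + 2 ^ (j + 3) * r := by linarith
        refine ⟨(q' + 2 * w + 1) + u * r + u * 2 ^ j * (1 + 2 * r) ^ 2 + 4 * 2 ^ j * q * (1 + 2 * r) +
          2 ^ (j + 3) * q * 2 ^ j * (1 + 2 * r) ^ 2, ?_⟩
        rw [ht', hy', hw, hq']
        ring
  obtain ⟨j, rfl⟩ := Nat.exists_eq_add_of_le ha
  obtain ⟨t, ht, htu⟩ := key j u hu
  exact hcong t u (by rwa [add_comm] at htu) ht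

section

variable (n : ℕ) [NeZero n] (M : Type) [Field M] [NumberField M] [IsCyclotomicExtension {n} ℚ M]

include n in
lemma gal_comm (σ τ : Gal(M/ℚ)) : σ * τ = τ * σ :=
  (galEquivZMod n M).injective (by rw [map_mul, map_mul, mul_comm])

/-- the primitive root of unity of odd order -/
noncomputable def xi (a : ℕ) : 𝓞 M := zz n M ^ (2 ^ a)

lemma xi_prim {a m : ℕ} (hn : n = 2 ^ a * m) : IsPrimitiveRoot (xi n M a) m :=
  (zz_prim n M).pow (NeZero.pos n) hn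

lemma smul_xi (a : ℕ) (σ : Gal(M/ℚ)) : σ • xi n M a = xi n M a ^ (galEquivZMod n M σ).val.val := by
  unfold xi
  rw [smul_pow', smul_zz, ← pow_mul, ← pow_mul, mul_comm]

lemma pr_pow_iff {R : Type*} [CommRing R] {x : R} {m : ℕ} (hx : IsPrimitiveRoot x m) (hm : 0 < m) (i j : ℕ) :
    x ^ i = x ^ j ↔ i ≡ j [MOD m] := by
  have h1 : ∀ i : ℕ, x ^ i = x ^ (i % m) := by
    intro i
    conv_lhs => rw [← Nat.div_add_mod i m, pow_add, pow_mul, hx.pow_eq_one, one_pow, one_mul]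
  constructor
  · intro h
    rw [h1 i, h1 j] at h
    exact hx.pow_inj (Nat.mod_lt _ hm) (Nat.mod_lt _ hm) h
  · intro h
    rw [h1 i, h1 j, h]

lemma exists_pt (K : Type) [Field K] [NumberField K] (v : HeightOneSpectrum (𝓞 K)) :
    ∃ (Ω : Type) (_ : Field Ω) (_ : IsAlgClosed Ω) (φ : 𝓞 K →+* Ω), ∀ x, φ x = 0 ↔ x ∈ v.asIdeal := by
  have hvmax := v.isMaximal
  let _ : Field (𝓞 K ⧸ v.asIdeal) := Ideal.Quotient.field v.asIdeal
  refine ⟨AlgebraicClosure (𝓞 K ⧸ v.asIdeal), inferInstance, inferInstance,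
    (algebraMap (𝓞 K ⧸ v.asIdeal) (AlgebraicClosure (𝓞 K ⧸ v.asIdeal))).comp
      (Ideal.Quotient.mk v.asIdeal), fun x => ?_⟩
  rw [RingHom.comp_apply, map_eq_zero_iff _ (algebraMap (𝓞 K ⧸ v.asIdeal) _).injective,
    Ideal.Quotient.eq_zero_iff_mem]

theorem unr_of {a m : ℕ} (hm : Odd m) (hn : n = 2 ^ a * m) (K : IntermediateField ℚ M) (d : ℤ)
    (s : M) (hs : s ^ 2 = (d : M)) (hs0 : s ≠ 0)
    (H : ∀ τ ∈ K.fixingSubgroup, τ • xi n M a = xi n M a → τ s = s)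
    (v : HeightOneSpectrum (𝓞 K)) (hv : (2 : 𝓞 K) ∈ v.asIdeal) :
    ∃ c t : K, c ≠ 0 ∧ v.valuation K t ≤ 1 ∧ (d : K) * c ^ 2 = 1 + 4 * t := by
  classical
  have hgal : IsGalois ℚ M := IsCyclotomicExtension.isGalois {n} ℚ M
  have hm0 : m ≠ 0 := by rintro rfl; simp at hm
  have hfixK : ∀ z : M, (∀ τ ∈ K.fixingSubgroup, τ z = z) → z ∈ K := by
    intro z hz
    have h1 : z ∈ IntermediateField.fixedField K.fixingSubgroup := by
      rintro ⟨g, hg⟩
      exact hz g hg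
    rwa [IsGalois.fixedField_fixingSubgroup] at h1
  by_cases hsK : s ∈ K
  · refine ⟨(⟨s, hsK⟩ : K)⁻¹, 0, ?_, by simp, ?_⟩
    · rw [ne_eq, inv_eq_zero]
      intro h
      exact hs0 (congrArg Subtype.val h)
    · have h1 : ((⟨s, hsK⟩ : K)) ^ 2 = (d : K) := by
        apply Subtype.ext
        push_cast
        exact hs
      have h2 : (⟨s, hsK⟩ : K) ≠ 0 := fun h => hs0 (congrArg Subtype.val h)
      rw [← h1]
      field_simp
      simp
  obtain ⟨σ, hσ, hσs⟩ : ∃ σ ∈ K.fixingSubgroup, σ s ≠ s := by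
    by_contra hcon
    push Not at hcon
    exact hsK (hfixK s hcon)
  have hpm : ∀ τ : Gal(M/ℚ), τ s = s ∨ τ s = -s := by
    intro τ
    have h1 : (τ s) ^ 2 = s ^ 2 := by
      rw [← map_pow, hs, map_intCast]
    exact sq_eq_sq_iff_eq_or_eq_neg.1 h1
  have hσ' : σ s = -s := (hpm σ).resolve_left hσs
  -- the quadratic extension
  let H₁ : Subgroup Gal(M/ℚ) :=
    { carrier := {τ | τ ∈ K.fixingSubgroup ∧ τ s = s}
      mul_mem' := by
        rintro x y ⟨hx, hx'⟩ ⟨hy, hy'⟩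
        exact ⟨mul_mem hx hy, by rw [AlgEquiv.mul_apply, hy', hx']⟩
      one_mem' := ⟨one_mem _, rfl⟩
      inv_mem' := by
        rintro x ⟨hx, hx'⟩
        refine ⟨inv_mem hx, ?_⟩
        have h1 : x⁻¹ (x s) = s := by
          rw [← AlgEquiv.mul_apply, inv_mul_cancel]
          rfl
        rwa [hx'] at h1 }
  have hH₁ : ∀ τ, τ ∈ H₁ ↔ τ ∈ K.fixingSubgroup ∧ τ s = s := fun τ => Iff.rfl
  let K' : IntermediateField ℚ M := IntermediateField.fixedField H₁
  have hK' : K'.fixingSubgroup = H₁ := IntermediateField.fixingSubgroup_fixedField H₁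
  -- a geometric point above `v`
  obtain ⟨Ω, _, _, φ, hφ⟩ := exists_pt K v
  obtain ⟨ψ, hψ⟩ := exists_extend (A := 𝓞 K) (B := 𝓞 M)
    (FaithfulSMul.algebraMap_injective (𝓞 K) (𝓞 M)) φ
  have h2 : (2 : Ω) = 0 := by
    have := (hφ 2).2 hv
    rwa [map_ofNat] at this
  have hmΩ : (m : Ω) ≠ 0 := by
    obtain ⟨r, hr⟩ := hm
    rw [hr]
    push_cast
    rw [h2, zero_mul, zero_add]
    exact one_ne_zero
  have hxiΩ : IsPrimitiveRoot (ψ (xi n M a)) m := by
    have : NeZero (m : Ω) := ⟨hmΩ⟩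
    rw [← Polynomial.isRoot_cyclotomic_iff]
    have h3 : (Polynomial.cyclotomic m (𝓞 M)).IsRoot (xi n M a) :=
      (xi_prim n M hn).isRoot_cyclotomic (Nat.pos_of_ne_zero hm0)
    have h4 := h3.map (f := ψ)
    rwa [Polynomial.map_cyclotomic] at h4
  obtain ⟨x, hx⟩ : ∃ x : 𝓞 K', ψ (σ • algebraMap (𝓞 K') (𝓞 M) x) ≠ ψ (algebraMap (𝓞 K') (𝓞 M) x) := by
    by_contra hcon
    push Not at hcon
    obtain ⟨h, hh, hh'⟩ := fib n M K' ψ (ψ.comp (MulSemiringAction.toRingHom Gal(M/ℚ) (𝓞 M) σ)) (by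
      ext y
      simp only [RingHom.coe_comp, Function.comp_apply, MulSemiringAction.toRingHom_apply]
      exact (hcon y).symm)
    rw [hK', hH₁] at hh
    simp only [RingHom.coe_comp, Function.comp_apply, MulSemiringAction.toRingHom_apply] at hh'
    have h3 : ψ (σ • xi n M a) = ψ (h • xi n M a) := by
      unfold xi
      rw [smul_pow', smul_pow', map_pow, map_pow, hh']
    rw [smul_xi, smul_xi, map_pow, map_pow, pr_pow_iff hxiΩ (Nat.pos_of_ne_zero hm0)] at h3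
    have h4 : σ • xi n M a = h • xi n M a := by
      rw [smul_xi, smul_xi, pr_pow_iff (xi_prim n M hn) (Nat.pos_of_ne_zero hm0)]
      exact h3
    have h5 : (h⁻¹ * σ) • xi n M a = xi n M a := by
      rw [mul_smul, h4, inv_smul_smul]
    have h6 := H (h⁻¹ * σ) (mul_mem (inv_mem hh.1) hσ) h5
    have h7 : σ s = h s := by
      have h8 : h ((h⁻¹ * σ) s) = σ s := by
        rw [← AlgEquiv.mul_apply, mul_inv_cancel_left]
      rw [← h8, h6]
    rw [hh.2] at h7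
    exact hσs h7
  -- trace, norm, and the difference
  have hcomm := gal_comm n M
  set X : M := ((x : K') : M) with hX
  have hXfix : ∀ τ ∈ H₁, τ X = X := by
    intro τ hτ
    have h1 : X ∈ K' := (x : K').2
    exact h1 ⟨τ, hτ⟩
  have hXi : IsIntegral ℤ X := by
    have : IsIntegral ℤ (x : K') := x.isIntegral_coe
    exact this.map (IntermediateField.val K' |>.restrictScalars ℤ)
  have hact : ∀ τ ∈ K.fixingSubgroup, (τ s = s ∧ τ X = X ∧ τ (σ X) = σ X) ∨
      (τ s = -s ∧ τ X = σ X ∧ τ (σ X) = X) := by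
    intro τ hτ
    have hsw : τ (σ X) = σ (τ X) := by
      rw [← AlgEquiv.mul_apply, ← AlgEquiv.mul_apply, hcomm]
    rcases hpm τ with h | h
    · left
      have h1 := hXfix τ ⟨hτ, h⟩
      exact ⟨h, h1, by rw [hsw, h1]⟩
    · right
      have h1 : (σ⁻¹ * τ) s = s := by
        have h3 : σ⁻¹ (-s) = s := by
          rw [← hσ', ← AlgEquiv.mul_apply, inv_mul_cancel]
          rfl
        rw [AlgEquiv.mul_apply, h, h3]
      have h4 := hXfix _ ⟨mul_mem (inv_mem hσ) hτ, h1⟩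
      have h5 : τ X = σ X := by
        have h6 : σ ((σ⁻¹ * τ) X) = τ X := by
          rw [← AlgEquiv.mul_apply, mul_inv_cancel_left]
        rw [← h6, h4]
      have h7 : (σ * σ) s = s := by
        rw [AlgEquiv.mul_apply, hσ', map_neg, hσ', neg_neg]
      have h8 := hXfix _ ⟨mul_mem hσ hσ, h7⟩
      refine ⟨h, h5, ?_⟩
      rw [hsw, h5, ← AlgEquiv.mul_apply, h8]
  have hT : X + σ X ∈ K := hfixK _ fun τ hτ => by
    rcases hact τ hτ with ⟨-, h1, h3⟩ | ⟨-, h1, h3⟩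
    · rw [map_add, h1, h3]
    · rw [map_add, h1, h3, add_comm]
  have hN : X * σ X ∈ K := hfixK _ fun τ hτ => by
    rcases hact τ hτ with ⟨-, h1, h3⟩ | ⟨-, h1, h3⟩
    · rw [map_mul, h1, h3]
    · rw [map_mul, h1, h3, mul_comm]
  have hb : (X - σ X) / s ∈ K := hfixK _ fun τ hτ => by
    rcases hact τ hτ with ⟨h0, h1, h3⟩ | ⟨h0, h1, h3⟩
    · rw [map_div₀, map_sub, h1, h3, h0]
    · rw [map_div₀, map_sub, h1, h3, h0]
      field_simp
      ring
  have hTi : IsIntegral ℤ (⟨X + σ X, hT⟩ : K) := by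
    have h1 : IsIntegral ℤ (X + σ X) := hXi.add (hXi.map (σ : M →ₐ[ℚ] M))
    rwa [← isIntegral_algebraMap_iff (FaithfulSMul.algebraMap_injective K M)]
  have hNi : IsIntegral ℤ (⟨X * σ X, hN⟩ : K) := by
    have h1 : IsIntegral ℤ (X * σ X) := hXi.mul (hXi.map (σ : M →ₐ[ℚ] M))
    rwa [← isIntegral_algebraMap_iff (FaithfulSMul.algebraMap_injective K M)]
  let TT : 𝓞 K := ⟨⟨X + σ X, hT⟩, hTi⟩
  let NN : 𝓞 K := ⟨⟨X * σ X, hN⟩, hNi⟩
  have hTT : TT ∉ v.asIdeal := by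
    rw [← hφ, ← hψ]
    have h1 : algebraMap (𝓞 K) (𝓞 M) TT = algebraMap (𝓞 K') (𝓞 M) x + σ • algebraMap (𝓞 K') (𝓞 M) x := by
      apply RingOfIntegers.ext
      rfl
    rw [RingHom.comp_apply, h1, map_add]
    intro h3
    apply hx
    have h4 := eq_neg_of_add_eq_zero_right h3
    rw [h4]
    have h5 : ∀ z : Ω, -z = z := by
      intro z
      have : z + z = 0 := by rw [← two_mul, h2, zero_mul]
      exact neg_eq_of_add_eq_zero_left this
    exact h5 _
  have hT0 : (⟨X + σ X, hT⟩ : K) ≠ 0 := by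
    intro h
    apply hTT
    have : TT = 0 := RingOfIntegers.ext h
    rw [this]
    exact zero_mem _
  have hvT : v.valuation K (⟨X + σ X, hT⟩ : K) = 1 := by
    have h1 : v.valuation K (algebraMap (𝓞 K) K TT) ≤ 1 := v.valuation_le_one TT
    have h3 : ¬ v.valuation K (algebraMap (𝓞 K) K TT) < 1 := by
      rw [HeightOneSpectrum.valuation_lt_one_iff_mem]
      exact hTT
    exact le_antisymm h1 (not_lt.1 h3)
  have hvN : v.valuation K (⟨X * σ X, hN⟩ : K) ≤ 1 := v.valuation_le_one NN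
  have hXne : X - σ X ≠ 0 := by
    intro h
    apply hx
    congr 1
    apply RingOfIntegers.ext
    exact (sub_eq_zero.1 h).symm
  refine ⟨(⟨(X - σ X) / s, hb⟩ : K) / ⟨X + σ X, hT⟩, -(⟨X * σ X, hN⟩ : K) / (⟨X + σ X, hT⟩ : K) ^ 2,
    ?_, ?_, ?_⟩
  · apply div_ne_zero _ hT0
    intro h
    exact div_ne_zero hXne hs0 (congrArg Subtype.val h)
  · rw [map_div₀, Valuation.map_neg, map_pow, hvT, one_pow, div_one]
    exact hvN
  · have h1 : (d : K) * (⟨(X - σ X) / s, hb⟩ : K) ^ 2 =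
        (⟨X + σ X, hT⟩ : K) ^ 2 - 4 * (⟨X * σ X, hN⟩ : K) := by
      apply Subtype.ext
      show ((d : K) : M) * ((X - σ X) / s) ^ 2 = (X + σ X) ^ 2 - 4 * (X * σ X)
      have h3 : ((d : K) : M) = s ^ 2 := by rw [hs]; rfl
      rw [h3]
      field_simp
      ring
    rw [div_pow, ← mul_div_assoc, h1]
    field_simp
    ring

end

end Pool.Agent.K4H77.CX
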